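import Pool.Agent.MWGN.StmtsB

/-!
# Row MC1 of the table mwgn
-/

namespace Pool.Agent.MWGN.H10

open Pool.Agent.Helper14_MV Pool.Agent.Helper2_MV
open Pool.Agent.MWK (pre Gw)

theorem count_gh_le (g h : ℕ → List ℕ) (c : ℕ) : ∀ {N i : ℕ}, i < N →
    (g i).count c + (h i).count c ≤ (gh g h N).count c
  | 0, i, hi => by omega
  | N + 1, i, hi => by
    rw [gh_succ, List.count_append, List.count_append]
    rcases Nat.lt_or_ge i N with h1 | h1
    · have := count_gh_le g h c h1
      omega
    · have : i = N := by omega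
      subst this
      omega

theorem mc1 (hF : ForStmt) (hM : McvStmt) : Mc1Stmt := by
  rintro τ m hT o' f p q hK ⟨hz, hz'⟩
  obtain ⟨H, hH, hL, -⟩ := (hF τ m hT f).1 o'
  have hw := hH true
  rw [if_pos rfl] at hw
  set g : ℕ → List ℕ := fun i => if i < m then f (N1.L i) else
    if decide (i = m) = o' then f (N1.L m) else f (N1.L (m + 1)) with hg
  set h : ℕ → List ℕ := fun i => if i < m then f (N1.C i) ++ f (N1.C i) else [] with hh
  obtain ⟨w, hwd⟩ : ∃ w, w = p ++ (w0 τ m true o').flatMap f ++ q := ⟨_, rfl⟩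
  have hw2 : w = p ++ (f 0 ++ (f 1 ++ (f 2 ++ (f 0 ++ (gh g h (m + 2) ++ (f 1 ++ (H ++ q))))))) := by
    rw [hwd, hw]
    simp only [List.append_assoc]
  rw [← hwd] at hK
  have hgH : ∀ i < m + 2, ∀ c ∈ g i, c ∈ H := by
    intro i hi c hc
    have hex : ∃ i' ≤ m + 1, g i = f (N1.L i') := by
      simp only [hg]
      split
      · exact ⟨i, by omega, rfl⟩
      · split
        · exact ⟨m, by omega, rfl⟩
        · exact ⟨m + 1, le_rfl, rfl⟩
    obtain ⟨i', hi', he⟩ := hex
    obtain ⟨H1, H2, h3⟩ := hL i' hi'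
    rw [h3, ← he]
    simp [hc]
  have hhG : ∀ i < m + 2, ∀ c ∈ h i, 2 ≤ (gh g h (m + 2)).count c := by
    intro i hi c hc
    have h1 := count_gh_le g h c hi
    have h2 : 2 ≤ (h i).count c := by
      simp only [hh] at hc ⊢
      split at hc
      · rename_i hi'
        rw [if_pos hi', List.count_append]
        have h3 : c ∈ f (N1.C i) := by simpa using hc
        have := List.count_pos_iff.mpr h3
        omega
      · simp at hc
    omega
  have hG2 : ∀ c ∈ gh g h (m + 2), 2 ≤ w.count c := by
    intro c hc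
    have hcG := List.count_pos_iff.mpr hc
    rw [mem_gh] at hc
    obtain ⟨i, hi, hc⟩ := hc
    rw [hw2]
    simp only [List.count_append]
    rcases hc with hc | hc
    · have := List.count_pos_iff.mpr (hgH i hi c hc)
      omega
    · have := hhG i hi c hc
      omega
  have key := (hM (N2 m) m (m + 1) (by omega) le_rfl p (f 0) (f 1) (f 2) (gh g h (m + 2)) (H ++ q) w
    hw2 hG2 hK.1.c2 hz hz' g h rfl (fun i hi c hc => by simp [hgH i hi c hc]) hhG
    (fun h => by omega) (fun h => by omega)).2 m (by omega)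
  simp [hh] at key

end Pool.Agent.MWGN.H10
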