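import Pool.Agent.MWGN.StmtsA

/-!
# Row PRB of the table mwgn
-/

namespace Pool.Agent.MWGN.H10

open Pool.Agent.Helper14_MV Pool.Agent.Helper2_MV
open Pool.Agent.MWK (pre Gw)

theorem prb : PrbStmt := by
  intro L C m j hj hL hC R
  obtain ⟨k, rfl⟩ : ∃ k, m = j + (k + 1) := ⟨m - j - 1, by omega⟩
  have h1 : ∃ B, bd (sg L) (sg C) (j + (k + 1)) ++ R = bd (sg L) (sg C) j ++ L j :: B := by
    refine ⟨?_, ?_⟩
    rotate_left
    · unfold bd
      rw [List.range_add, List.flatMap_append, List.append_assoc, List.range_succ_eq_map,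
        List.map_cons, List.flatMap_cons, Nat.add_zero]
      simp only [sg, List.cons_append, List.nil_append]
      rfl
  obtain ⟨B, h1⟩ := h1
  rw [h1]
  apply MWK.pre_split
  intro hm
  unfold bd at hm
  rw [List.mem_flatMap] at hm
  obtain ⟨i, hi, hm⟩ := hm
  rw [List.mem_range] at hi
  simp only [sg, List.mem_append, List.mem_singleton] at hm
  rcases hm with hm | hm | hm
  · have := hL j (by omega) i (by omega) hm
    omega
  · exact hC i (by omega) j (by omega) hm.symm
  · exact hC i (by omega) j (by omega) hm.symm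

end Pool.Agent.MWGN.H10
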