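import Pool.Agent.MWGN.StmtsC

/-!
# Row RNF of the table mwgn: renaming by a substitution (the lemma `exf` is by helper46, row REN)
-/

namespace Pool.Agent.MWGN.H10

open Pool.Agent.Helper14_MV Pool.Agent.Helper2_MV Pool.Agent.MWGN

/-- a function with given values on a list without repetitions -/
theorem exf : ∀ (l : List ℕ) (vs : List (List ℕ)), l.Nodup → l.length = vs.length →
    ∃ f : ℕ → List ℕ, l.map f = vs := by
  intro l
  induction l with
  | nil =>
    intro vs _ hl
    refine ⟨fun _ => [], ?_⟩
    rw [List.map_nil]
    exact (List.length_eq_zero_iff.1 hl.symm).symm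
  | cons a l ih =>
    intro vs hn hl
    rcases vs with _ | ⟨v, vs⟩
    · simp at hl
    · obtain ⟨ha, hn'⟩ := List.nodup_cons.1 hn
      obtain ⟨f, hf⟩ := ih vs hn' (by simpa using hl)
      refine ⟨Function.update f a v, ?_⟩
      rw [List.map_cons, Function.update_self]
      congr 1
      rw [← hf]
      apply List.map_congr_left
      intro b hb
      rw [Function.update_of_ne]
      rintro rfl
      exact ha hb

/-- row RNF -/
theorem rnf : RnfStmt := by
  intro β ν τ r hτ hn hr X B S L C
  obtain ⟨f, hf⟩ := exf (nr ν r) (X :: B ::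
    ((List.range (r + 1)).map S ++ ((List.range (r + 1)).map L ++ (List.range r).map C))) hn
    (by simp [nr])
  unfold nr at hf
  simp only [List.map_cons, List.map_append, List.map_map, List.cons.injEq] at hf
  obtain ⟨hX, hB, hrest⟩ := hf
  obtain ⟨hS, hrest⟩ := List.append_inj hrest (by simp)
  obtain ⟨hL, hC⟩ := List.append_inj hrest (by simp)
  have hS' : ∀ i ≤ r, f (ν.S i) = S i := fun i hi =>
    (List.map_inj_left.1 hS) i (List.mem_range.2 (by omega))
  have hL' : ∀ i ≤ r, f (ν.L i) = L i := fun i hi =>
    (List.map_inj_left.1 hL) i (List.mem_range.2 (by omega))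
  have hC' : ∀ i < r, f (ν.C i) = C i := fun i hi =>
    (List.map_inj_left.1 hC) i (List.mem_range.2 (by omega))
  have hbs : ∀ s : ℕ → Bool, (bs (sg ν.L) (sg ν.C) [ν.x] s r).flatMap f = bs L C X s r := by
    intro s
    unfold bs
    rw [List.flatMap_assoc]
    apply List.flatMap_congr
    intro i hi
    have hi' := List.mem_range.1 hi
    cases hs : s i
    · simp only [sg, List.flatMap_append, List.flatMap_cons, List.flatMap_nil, List.append_nil,
        hL' i (by omega), hC' i hi', Bool.false_eq_true, if_false]
    · simp only [sg, List.flatMap_append, List.flatMap_cons, List.flatMap_nil, List.append_nil,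
        hL' i (by omega), hC' i hi', if_true, hX]
  have htl : (τ.flatMap (fun i => sg ν.S i ++ sg ν.L i)).flatMap f =
      τ.flatMap (fun i => S i ++ L i) := by
    rw [List.flatMap_assoc]
    apply List.flatMap_congr
    intro i hi
    have hi' := (hτ.2 i).1 hi
    simp only [sg, List.flatMap_append, List.flatMap_cons, List.flatMap_nil, List.append_nil]
    rw [hL' i hi', hS' i hi']
  have hk : ∀ s : ℕ → Bool, (ws [ν.x] [ν.b] (sg ν.S) (sg ν.L) (sg ν.C) s τ r).flatMap f =
      ws X B S L C s τ r := by
    intro s
    unfold ws
    simp only [List.flatMap_append, List.flatMap_singleton, hbs, htl]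
    simp only [sg, List.flatMap_singleton, hX, hB, hL' r le_rfl]
  have h1 := hr.sub f
  rw [hk, hk] at h1
  exact h1

end Pool.Agent.MWGN.H10
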